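import Pool.Agent.H17.SQA.Stmts

/-!
# SQA, row COD: characters of `ZMod p` with a uniform bound
-/

set_option autoImplicit false

namespace Pool.SQA

open Finset

theorem t_cod : CODStmt := by
  classical
  intro p k _ hk
  have hp : 0 < p := (Fact.out : p.Prime).pos
  haveI : NeZero p := ⟨hp.ne'⟩
  set ψ : AddChar (ZMod p) ℂ := ZMod.stdAddChar with hψd
  have hψ : ψ.IsPrimitive := ZMod.isPrimitive_stdAddChar p
  refine ⟨fun j t => ψ ((((j : ℕ) + k : ℕ) : ZMod p) * t), ?_, ?_, ?_⟩
  · intro j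
    simp
  · intro j t t'
    show ψ _ = ψ _ * ψ _
    rw [mul_add, AddChar.map_add_eq_mul]
  · intro f hf
    set S : Finset (ZMod p) := univ.filter (fun a => a.val < k) with hSd
    have hS : S.card ≤ k := by
      have h := Finset.card_le_card_of_injOn (s := S) (t := range k) ZMod.val
        (by
          intro a ha
          have ha' := (Finset.mem_filter.mp ha).2
          simpa using ha')
        (fun a _ b _ hab => ZMod.val_injective p hab)
      simpa using h
    set D : ZMod p → ℂ := fun t => ∑ a ∈ S, ψ (a * t) with hD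
    have h1 : (p : ℂ) * f 0 = ∑ t, D t * f t := by
      have e1 : ∑ a : ZMod p, ∑ t, ψ (a * t) * f t = p * f 0 := by
        rw [Finset.sum_comm]
        have : ∀ t : ZMod p, ∑ a : ZMod p, ψ (a * t) * f t =
            if t = 0 then (p : ℂ) * f t else 0 := by
          intro t
          rw [← Finset.sum_mul, AddChar.sum_mulShift t hψ, ZMod.card]
          split_ifs <;> simp
        rw [Finset.sum_congr rfl (fun t _ => this t)]
        simp
      rw [← e1]
      simp only [hD, Finset.sum_mul]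
      rw [Finset.sum_comm (s := (univ : Finset (ZMod p))) (t := S)]
      symm
      apply Finset.sum_subset (Finset.subset_univ _)
      intro a _ ha
      have ha' : k ≤ a.val := by
        by_contra hc
        exact ha (Finset.mem_filter.mpr ⟨Finset.mem_univ _, not_le.mp hc⟩)
      have hlt : a.val < p := ZMod.val_lt a
      have h := hf ⟨a.val - k, by omega⟩
      simp only at h
      have e2 : (((a.val - k) + k : ℕ) : ZMod p) = a := by
        rw [Nat.sub_add_cancel ha', ZMod.natCast_zmod_val]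
      rw [e2] at h
      exact h
    have h2 : ∑ t, ‖D t‖ ^ 2 = (p : ℝ) * S.card := by
      have e1 : ((∑ t, ‖D t‖ ^ 2 : ℝ) : ℂ) = (p : ℂ) * S.card := by
        push_cast
        have e3 : ∀ t : ZMod p, ((‖D t‖ : ℂ)) ^ 2 =
            ∑ a ∈ S, ∑ b ∈ S, ψ (t * (a - b)) := by
          intro t
          rw [← Complex.mul_conj']
          simp only [hD, map_sum, Finset.sum_mul_sum]
          refine Finset.sum_congr rfl fun a _ => Finset.sum_congr rfl fun b _ => ?_
          rw [← AddChar.map_neg_eq_conj, ← AddChar.map_add_eq_mul]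
          congr 1
          ring
        rw [Finset.sum_congr rfl (fun t _ => e3 t), Finset.sum_comm]
        have e4 : ∀ a ∈ S, ∑ t : ZMod p, ∑ b ∈ S, ψ (t * (a - b)) = (p : ℂ) := by
          intro a ha
          rw [Finset.sum_comm]
          have : ∀ b ∈ S, ∑ t : ZMod p, ψ (t * (a - b)) = if a = b then (p : ℂ) else 0 := by
            intro b _
            rw [AddChar.sum_mulShift (a - b) hψ, ZMod.card]
            simp only [sub_eq_zero]
            split_ifs <;> simp
          rw [Finset.sum_congr rfl this]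
          simp [ha]
        rw [Finset.sum_congr rfl e4]
        simp [mul_comm]
      exact_mod_cast e1
    have h3 : (p : ℝ) * ‖f 0‖ ≤ ∑ t, ‖D t‖ * ‖f t‖ := by
      calc (p : ℝ) * ‖f 0‖ = ‖(p : ℂ) * f 0‖ := by simp
        _ = ‖∑ t, D t * f t‖ := by rw [h1]
        _ ≤ ∑ t, ‖D t * f t‖ := norm_sum_le _ _
        _ = ∑ t, ‖D t‖ * ‖f t‖ := by simp
    have h4 : ((p : ℝ) * ‖f 0‖) ^ 2 ≤ ((p : ℝ) * S.card) * ∑ t, ‖f t‖ ^ 2 := by
      calc ((p : ℝ) * ‖f 0‖) ^ 2 ≤ (∑ t, ‖D t‖ * ‖f t‖) ^ 2 :=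
            pow_le_pow_left₀ (by positivity) h3 2
        _ ≤ (∑ t, ‖D t‖ ^ 2) * ∑ t, ‖f t‖ ^ 2 := Finset.sum_mul_sq_le_sq_mul_sq _ _ _
        _ = _ := by rw [h2]
    have hp' : (0 : ℝ) < p := by exact_mod_cast hp
    have hS' : (S.card : ℝ) ≤ k := by exact_mod_cast hS
    have hq : 0 ≤ ∑ t, ‖f t‖ ^ 2 := Finset.sum_nonneg fun _ _ => by positivity
    have h5 : (p : ℝ) * ((p : ℝ) * ‖f 0‖ ^ 2) ≤ (p : ℝ) * (k * ∑ t, ‖f t‖ ^ 2) := by
      calc (p : ℝ) * ((p : ℝ) * ‖f 0‖ ^ 2) = ((p : ℝ) * ‖f 0‖) ^ 2 := by ring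
        _ ≤ ((p : ℝ) * S.card) * ∑ t, ‖f t‖ ^ 2 := h4
        _ = (p : ℝ) * (S.card * ∑ t, ‖f t‖ ^ 2) := by ring
        _ ≤ _ := by
            apply mul_le_mul_of_nonneg_left _ hp'.le
            exact mul_le_mul_of_nonneg_right hS' hq
    exact le_of_mul_le_mul_left h5 hp'

end Pool.SQA
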